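import Mathlib
import Pool.Agent.MP_2ab689_gt.Big.Del
import Pool.Agent.MP_2ab689_gt.Big.Stab
import Pool.Agent.MP_2ab689_gt.Big.Fan
import Pool.Agent.MP_2ab689_gt.Big.Slab
import Pool.Agent.MP_2ab689_gt.Big.Loss
import Pool.Agent.MP_2ab689_gt.Big.Seq
import Pool.Agent.MP_2ab689_gt.Big.Ang
import Pool.Agent.MP_2ab689_gt.Big.Plan
import Pool.Agent.MP_2ab689_gt.Big.Build
import Pool.Agent.MP_2ab689_gt.Hol.Grp
import Pool.Agent.MP_2ab689_gt.Hol.Cnt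
import Pool.Agent.MP_2ab689_gt.Hol.Upb
import Pool.Agent.MP_2ab689_gt.Hol.Rig
import Pool.Agent.MP_2ab689_gt.Hol.Sym
import Pool.Agent.MP_2ab689_gt.Hol.Gram
import Pool.Agent.MP_2ab689_gt.Hol.Alg
import Pool.Agent.MP_2ab689_gt.Hol.Cmp
import Pool.Agent.MP_2ab689_gt.Hol.Loc
import Pool.Agent.MP_2ab689_gt.Hol.Frm
import Pool.Agent.MP_2ab689_gt.Hol.Chn
import Pool.Agent.MP_2ab689_gt.Hol.Par
import Pool.Agent.MP_2ab689_gt.Hol.Grd
import Pool.Agent.MP_2ab689_gt.Hol.Sma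
import Pool.Agent.MP_2ab689_gt.Hol.Smb
import Pool.Agent.MP_2ab689_gt.Hol.Lower
import Pool.Agent.MP_2ab689_gt.Hol.Flt
import Pool.Agent.MP_2ab689_gt.Hol.Edg
import Pool.Agent.MP_2ab689_gt.Hol.Main

/-!
The number of irregular vertices of a maximum volume polytope with `K` vertices is the square
root of `K` up to logarithmic factors.
-/

namespace Pool.Agent.Results.MP_2ab689_gt.DefectCount

open Pool.Agent.MP_2ab689_gt Pool.Agent.MP_2ab689_gt.Big Pool.Agent.MP_2ab689_gt.Hol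

theorem result : ∃ (c C : ℝ) (K₀ : ℕ), 0 < c ∧ 0 < C ∧ ∀ K : ℕ, K₀ ≤ K →
    (∃ P : Set (EuclideanSpace ℝ (Fin 3)), IsMaxVol K P) ∧
    ∀ P : Set (EuclideanSpace ℝ (Fin 3)), IsMaxVol K P →
      c * √(K : ℝ) / Real.log K ^ 2 ≤
        ({v | v ∈ P.extremePoints ℝ ∧ valence P v ≠ 6}.ncard : ℝ) ∧
      ({v | v ∈ P.extremePoints ℝ ∧ valence P v ≠ 6}.ncard : ℝ) ≤ C * √(K : ℝ) * Real.log K := by
  obtain ⟨c, C, K₀, c0, C0, H⟩ := mainS delS (buildS (planS seqS angleS) (slabS fanS) lossS) stabS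
    (lowerS chnS (parS (locS grpS (rigS grpS cntS (upbS grpS)) symS gramS algS
      (cmpS grpS cntS (rigS grpS cntS (upbS grpS)))) frmS chnS) (smbS grdS smaS)) fltS edgS
  refine ⟨c, C, K₀, c0, C0, fun K hK => ⟨(H K hK).1, fun P hP =>
    ⟨((H K hK).2 P hP).1.trans ?_, ((H K hK).2 P hP).2⟩⟩⟩
  obtain ⟨S, hS⟩ := hP.1.1
  have fin : (P.extremePoints ℝ).Finite :=
    S.finite_toSet.subset (hS ▸ extremePoints_convexHull_subset)
  exact Nat.cast_le.2 (Set.ncard_le_ncard (fun v hv => ⟨hv.1, by have := hv.2; omega⟩)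
    (fin.subset fun v hv => hv.1))

end Pool.Agent.Results.MP_2ab689_gt.DefectCount
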