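import Mathlib
import Pool.Agent.MP_2ab689_gt.Big.Final
import Pool.Agent.MP_2ab689_gt.Big.Del
import Pool.Agent.MP_2ab689_gt.Big.Exv
import Pool.Agent.MP_2ab689_gt.Big.Tri1
import Pool.Agent.MP_2ab689_gt.Big.Tri2
import Pool.Agent.MP_2ab689_gt.Big.Stab
import Pool.Agent.MP_2ab689_gt.Big.Reg
import Pool.Agent.MP_2ab689_gt.Big.Pot
import Pool.Agent.MP_2ab689_gt.Big.Pack
import Pool.Agent.MP_2ab689_gt.Big.Dual
import Pool.Agent.MP_2ab689_gt.Big.Fan
import Pool.Agent.MP_2ab689_gt.Big.Slab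
import Pool.Agent.MP_2ab689_gt.Big.Loss
import Pool.Agent.MP_2ab689_gt.Big.Seq
import Pool.Agent.MP_2ab689_gt.Big.Ang
import Pool.Agent.MP_2ab689_gt.Big.Plan
import Pool.Agent.MP_2ab689_gt.Big.Build

/-!
The order of the third term in the maximum volume of an inscribed polytope with `K` vertices.
-/

namespace Pool.Agent.Results.MP_2ab689_gt.ThirdTerm

open Pool.Agent.MP_2ab689_gt Pool.Agent.MP_2ab689_gt.Big

theorem result : ∃ (c C : ℝ) (K₀ : ℕ), 0 < c ∧ 0 < C ∧ ∀ K : ℕ, K₀ ≤ K →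
    (∃ P : Set (EuclideanSpace ℝ (Fin 3)), IsMaxVol K P) ∧
    ∀ P : Set (EuclideanSpace ℝ (Fin 3)), IsMaxVol K P →
      c / ((K : ℝ) * √(K : ℝ) * √(Real.log K)) ≤
        4 * Real.pi / 3 - 4 * √3 * Real.pi ^ 2 / (3 * (K : ℝ)) - (MeasureTheory.volume P).toReal ∧
      4 * Real.pi / 3 - 4 * √3 * Real.pi ^ 2 / (3 * (K : ℝ)) - (MeasureTheory.volume P).toReal ≤
        C * Real.log K / ((K : ℝ) * √(K : ℝ)) :=
  third delS exS (buildS (planS seqS angleS) (slabS fanS) lossS) stabS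
    (glowS (regS angS rhoS badS) (defS angS) potS packS dualS)

end Pool.Agent.Results.MP_2ab689_gt.ThirdTerm
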