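import Mathlib
import Pool.Agent.MP_2ab689_gt.T32.Main

/-!
The maximum volume polytope with 32 vertices inscribed in the unit sphere.
-/

namespace Pool.Agent.Results.MP_2ab689_gt.ThirtyTwo

open Pool.Agent.MP_2ab689_gt

/-- The golden ratio. -/
noncomputable def gold : ℝ := (1 + √5) / 2

/-- The twelve vertices of a regular icosahedron, before normalisation. -/
noncomputable def ico : Fin 12 → EuclideanSpace ℝ (Fin 3) :=
  ![!₂[0, 1, gold], !₂[0, 1, -gold], !₂[0, -1, gold], !₂[0, -1, -gold],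
    !₂[1, gold, 0], !₂[1, -gold, 0], !₂[-1, gold, 0], !₂[-1, -gold, 0],
    !₂[gold, 0, 1], !₂[gold, 0, -1], !₂[-gold, 0, 1], !₂[-gold, 0, -1]]

/-- The twenty vertices of the dual regular dodecahedron, before normalisation. -/
noncomputable def dod : Fin 20 → EuclideanSpace ℝ (Fin 3) :=
  ![!₂[1, 1, 1], !₂[1, 1, -1], !₂[1, -1, 1], !₂[1, -1, -1],
    !₂[-1, 1, 1], !₂[-1, 1, -1], !₂[-1, -1, 1], !₂[-1, -1, -1],
    !₂[0, gold, gold⁻¹], !₂[0, gold, -gold⁻¹], !₂[0, -gold, gold⁻¹], !₂[0, -gold, -gold⁻¹],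
    !₂[gold, gold⁻¹, 0], !₂[gold, -gold⁻¹, 0], !₂[-gold, gold⁻¹, 0], !₂[-gold, -gold⁻¹, 0],
    !₂[gold⁻¹, 0, gold], !₂[gold⁻¹, 0, -gold], !₂[-gold⁻¹, 0, gold], !₂[-gold⁻¹, 0, -gold]]

/-- The 32 vertices: the icosahedron and the dual dodecahedron, both scaled to the unit sphere. -/
noncomputable def vertices32 : Set (EuclideanSpace ℝ (Fin 3)) :=
  (Set.range fun i => (√(1 + gold ^ 2))⁻¹ • ico i) ∪ Set.range fun i => (√3)⁻¹ • dod i

theorem result :
    (∀ P : Set (EuclideanSpace ℝ (Fin 3)), IsMaxVol 32 P ↔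
      ∃ φ : EuclideanSpace ℝ (Fin 3) ≃ₗᵢ[ℝ] EuclideanSpace ℝ (Fin 3),
        P = φ '' convexHull ℝ vertices32) ∧
    MeasureTheory.volume (convexHull ℝ vertices32) =
      ENNReal.ofReal (2 / 3 * √(50 - 10 * √5)) := by
  have h5 := T32.s5_sq
  have g1 : gold⁻¹ = (√5 - 1) / 2 := inv_eq_of_mul_eq_one_right (by
    unfold gold; linear_combination h5 / 4)
  have a1 : (√(1 + gold ^ 2))⁻¹ = 2 * T32.al := by
    refine inv_eq_of_mul_eq_one_right ((pow_eq_one_iff_of_nonneg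
      (mul_pos (by positivity) (mul_pos two_pos T32.al_pos)).le two_ne_zero).mp ?_)
    rw [mul_pow, Real.sq_sqrt (by positivity), gold]
    linear_combination T32.al_sq + T32.al ^ 2 * h5
  have b1 : (√3)⁻¹ = 2 * T32.be := inv_eq_of_mul_eq_one_right (by
    unfold T32.be; linear_combination T32.s3_sq / 3)
  have e1 : ∀ i : Fin 12, (√(1 + gold ^ 2))⁻¹ • ico i =
      ((WithLp.toLp 2 : V → E3) ∘ T32.q32) (Fin.castAdd 20 i) := by
    intro i
    rw [a1]
    fin_cases i <;> ext j <;> fin_cases j <;>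
      simp [ico, gold, T32.q32, T32.ut, T32.tab, T32.sc, T32.ev_eq, Fin.lt_def] <;> ring
  have e2 : ∀ i : Fin 20, (√3)⁻¹ • dod i =
      ((WithLp.toLp 2 : V → E3) ∘ T32.q32) (Fin.natAdd 12 i) := by
    intro i
    rw [b1, dod, g1]
    fin_cases i <;> ext j <;> fin_cases j <;>
      simp [gold, T32.q32, T32.ut, T32.tab, T32.sc, T32.ev_eq, Fin.lt_def] <;> ring
  have e : vertices32 = Set.range ((WithLp.toLp 2 : V → E3) ∘ T32.q32) := by
    unfold vertices32
    simp only [e1, e2]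
    ext x
    refine ⟨fun h => h.elim (fun ⟨_, k⟩ => ⟨_, k⟩) fun ⟨_, k⟩ => ⟨_, k⟩, fun ⟨i, k⟩ => ?_⟩
    induction i using Fin.addCases (m := 12) (n := 20) with
    | left i => exact Or.inl ⟨i, k⟩
    | right i => exact Or.inr ⟨i, k⟩
  rw [e]
  exact T32.main32

end Pool.Agent.Results.MP_2ab689_gt.ThirtyTwo
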