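import Mathlib
import Pool.Agent.MP_2ab689_gt.Fam.All

/-!
The maximum volume polytopes inscribed in the unit sphere with 9, 10, 11, 13, 14, 15 and 16
vertices.
-/

namespace Pool.Agent.Results.MP_2ab689_gt.UpToSixteen

open Pool.Agent.MP_2ab689_gt Pool.Agent.MP_2ab689_gt.Fam

theorem result : ∀ K ∈ ({9, 10, 11, 13, 14, 15, 16} : Finset ℕ),
    ∃ q : ℕ → EuclideanSpace ℝ (Fin 3), Solves K q ∧
      (∀ q', Solves K q' → ∀ v < K, q' v = q v) ∧
      (∀ P : Set (EuclideanSpace ℝ (Fin 3)), IsMaxVol K P ↔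
        ∃ φ : EuclideanSpace ℝ (Fin 3) ≃ₗᵢ[ℝ] EuclideanSpace ℝ (Fin 3),
          P = φ '' convexHull ℝ (q '' Set.Iio K)) ∧
      ENNReal.ofReal (((data K).2.2 : ℝ) / 10 ^ 7) ≤
        MeasureTheory.volume (convexHull ℝ (q '' Set.Iio K)) ∧
      MeasureTheory.volume (convexHull ℝ (q '' Set.Iio K)) ≤
        ENNReal.ofReal ((((data K).2.2 : ℝ) + 1) / 10 ^ 7) :=
  fun K hK => mainS K (by simpa [Ks] using hK)

end Pool.Agent.Results.MP_2ab689_gt.UpToSixteen
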